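import Pool.Agent.U758.BGS.Gap
import Pool.Agent.N250.SP.Surf

/-!
# Generic metrics on closed surfaces: what a generic law of the local statistics means

`F` is a topological space with the Baire property and `x φ 0 ≤ x φ 1 ≤ ... → ∞`, `φ ∈ F`, are
sequences of levels which depend continuously on `φ` (`IsFamily`). Examples: the unfolded levels of
the closed surfaces with the metrics `exp (ι φ) · g`, where `ι : F → C(M)` is continuous (for instance
the inclusion of the space of the smooth `φ` for which the metric has negative curvature and area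
one): that they form a family is the last part of the theorem, by the starting result
`SurfacesLimitStatistics`, where also their existence is proved; and (not in Lean) the unfolded levels
of ALL metrics in the space of the problem, since the eigenvalues are continuous in the metric. The
local statistics (`statistic`: the nearest neighbour spacings and all `n`-point correlations, with the
averages `1 / T` over `x_k ≤ T` of the problem) are those of this starting result. `ν` is a family of
locally finite measures, one for each statistic, for instance the GOE statistics.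

* The law `ν` holds for the generic `φ` (for `ν` = GOE and the space of all metrics this is the
  assertion of the problem) if and only if for the generic `φ` the statistics of `x ψ` tend to `ν` for
  `T → ∞` AND `ψ → φ`: a generic law is automatically uniform near the generic metrics. It is also
  equivalent to each of the following: for every test function and `ε > 0` every open set contains a
  smaller one on which the deviation from `ν` is at most `ε` from one common height on; the `φ` whose
  deviation exceeds `ε` at arbitrarily large heights are nowhere dense; the statistics of the generic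
  `φ` converge, to limits which may depend on `φ`, and every open set contains a `ψ` whose value, for a
  given test function and at some height `T ≥ T₀`, is `ε`-close to the one of `ν`; for the generic `φ`,
  nonnegative test functions and all `ε, δ > 0`, the deviation is at most `ε` at some height in
  `[T, (1 + δ) T]`, for all large `T` (for instance outside a set of heights of density zero).
* If the law `ν` does not hold for the generic `φ` then there are ONE nonnegative test function, one
  `ε`, one `δ` and a nonempty open set such that for the generic `φ` of this open set the deviation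
  exceeds `ε` on whole intervals `[T, (1 + δ) T]` with arbitrarily large `T`.
* The same for the convergence to limits which may depend on `φ`: it holds for the generic `φ` if and
  only if it holds jointly for `T → ∞` and `ψ → φ` at the generic `φ`; otherwise there are one test
  function, one `ε` and a nonempty open set such that for its generic members the statistic oscillates
  by more than `ε` at arbitrarily large heights.
The Baire argument for a fixed limit (`Pool.Agent.Q205.Baire.main_iff`, `main_dichotomy`,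
`main_nowhere`) is in the starting library and was not handed in; the joint convergence, the
convergence to unspecified limits and the intervals of heights are in `Pool/Agent/U758/BGS`.
-/

set_option autoImplicit false

open Set Filter Topology MeasureTheory
open scoped Real
open Pool.Agent.Y262.QE

noncomputable section

namespace Pool.Agent.Results.MP_a825e8_mp.GenericLaws

open Pool.Agent.Results.MP_a825e8_mp.SurfacesLimitStatistics (IsUnfolded dim statistic number)

/-- a continuous family of nondecreasing sequences of levels which tend to infinity -/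
structure IsFamily {F : Type} [TopologicalSpace F] (x : F → ℕ → ℝ) : Prop where
  cont : ∀ k, Continuous fun φ => x φ k
  mono : ∀ φ, Monotone (x φ)
  unbounded : ∀ φ, Tendsto (x φ) atTop atTop

/-- continuous test functions with compact support -/
def IsTest (a : Option ℕ) (f : (Fin (dim a) → ℝ) → ℝ) : Prop := Continuous f ∧ HasCompactSupport f

/-- the deviation of the statistic from the integral for `ν`, at the height `T` -/
def dev (ν : ∀ a, Measure (Fin (dim a) → ℝ)) (a : Option ℕ) (f : (Fin (dim a) → ℝ) → ℝ) (T : ℝ)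
    (x : ℕ → ℝ) : ℝ :=
  |statistic a f T x - ∫ z, f z ∂(ν a)|

/-- all local statistics of the levels `x` converge to the integrals for `ν`, for `T → ∞` -/
def Law (ν : ∀ a, Measure (Fin (dim a) → ℝ)) (x : ℕ → ℝ) : Prop :=
  ∀ a f, IsTest a f → Tendsto (fun T : ℝ => statistic a f T x) atTop (𝓝 (∫ z, f z ∂(ν a)))

/-- all local statistics of `x ψ` converge to the integrals for `ν`, for `T → ∞` and `ψ → φ` -/
def JointLaw {F : Type} [TopologicalSpace F] (x : F → ℕ → ℝ) (ν : ∀ a, Measure (Fin (dim a) → ℝ))
    (φ : F) : Prop :=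
  ∀ a f, IsTest a f → Tendsto (fun p : ℝ × F => statistic a f p.1 (x p.2)) (atTop ×ˢ 𝓝 φ)
    (𝓝 (∫ z, f z ∂(ν a)))

/-- for nonnegative test functions the deviation from `ν` is small at heights which are dense on a
logarithmic scale -/
def SparseLaw (ν : ∀ a, Measure (Fin (dim a) → ℝ)) (x : ℕ → ℝ) : Prop :=
  ∀ a f, IsTest a f → (∀ z, 0 ≤ f z) → ∀ ε : ℝ, 0 < ε → ∀ δ : ℝ, 0 < δ →
    ∃ T₀ : ℝ, ∀ T, T₀ ≤ T → ∃ T', T ≤ T' ∧ T' ≤ (1 + δ) * T ∧ dev ν a f T' x < ε

/-- all local statistics of the levels `x` converge, for `T → ∞` -/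
def Converges (x : ℕ → ℝ) : Prop :=
  ∀ a f, IsTest a f → ∃ c : ℝ, Tendsto (fun T : ℝ => statistic a f T x) atTop (𝓝 c)

/-- all local statistics of `x ψ` converge, for `T → ∞` and `ψ → φ` -/
def JointlyConverges {F : Type} [TopologicalSpace F] (x : F → ℕ → ℝ) (φ : F) : Prop :=
  ∀ a f, IsTest a f → ∃ c : ℝ,
    Tendsto (fun p : ℝ × F => statistic a f p.1 (x p.2)) (atTop ×ˢ 𝓝 φ) (𝓝 c)

theorem mono_statL (a : Option ℕ) : Monotone (Pool.Agent.N250.SP.statL a).I := by
  intro N N' h
  rcases a with _ | n
  · exact Finset.range_mono h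
  · exact Finset.filter_subset_filter _ (Fintype.piFinset_subset _ _ fun _ => Finset.range_mono h)

theorem family (F : Type) [TopologicalSpace F] [BaireSpace F] (x : F → ℕ → ℝ) (hx : IsFamily x) :
    (∀ ν : ∀ a, Measure (Fin (dim a) → ℝ), (∀ a, IsFiniteMeasureOnCompacts (ν a)) →
      List.TFAE [
        ∀ᶠ φ in residual F, Law ν (x φ),
        ∀ᶠ φ in residual F, JointLaw x ν φ,
        ∀ a f, IsTest a f → ∀ ε : ℝ, 0 < ε → ∀ U : Set F, IsOpen U → U.Nonempty →
          ∃ V : Set F, IsOpen V ∧ V.Nonempty ∧ V ⊆ U ∧ ∃ T₀ : ℝ, ∀ ψ ∈ V, ∀ T, T₀ ≤ T →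
            dev ν a f T (x ψ) ≤ ε,
        ∀ a f, IsTest a f → ∀ ε : ℝ, 0 < ε →
          IsNowhereDense {φ | ∀ T₀ : ℝ, ∃ T, T₀ ≤ T ∧ ε < dev ν a f T (x φ)},
        (∀ᶠ φ in residual F, Converges (x φ)) ∧
          ∀ a f, IsTest a f → ∀ ε : ℝ, 0 < ε → ∀ U : Set F, IsOpen U → U.Nonempty → ∀ T₀ : ℝ,
            ∃ ψ ∈ U, ∃ T, T₀ ≤ T ∧ dev ν a f T (x ψ) < ε,
        ∀ᶠ φ in residual F, SparseLaw ν (x φ)] ∧
      ((¬ ∀ᶠ φ in residual F, Law ν (x φ)) → ∃ a f, IsTest a f ∧ (∀ z, 0 ≤ f z) ∧
        ∃ ε : ℝ, 0 < ε ∧ ∃ δ : ℝ, 0 < δ ∧ ∃ U : Set F, IsOpen U ∧ U.Nonempty ∧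
          ∀ᶠ φ in residual F, φ ∈ U → ∀ T₀ : ℝ, ∃ T, T₀ ≤ T ∧
            ∀ T', T ≤ T' → T' ≤ (1 + δ) * T → ε < dev ν a f T' (x φ))) ∧
    ((∀ᶠ φ in residual F, Converges (x φ)) ↔ ∀ᶠ φ in residual F, JointlyConverges x φ) ∧
    ((¬ ∀ᶠ φ in residual F, Converges (x φ)) → ∃ a f, IsTest a f ∧ ∃ ε : ℝ, 0 < ε ∧
      ∃ U : Set F, IsOpen U ∧ U.Nonempty ∧ ∀ᶠ φ in residual F, φ ∈ U →
        ∀ T₀ : ℝ, ∃ T, T₀ ≤ T ∧ ∃ T', T₀ ≤ T' ∧
          ε < |statistic a f T (x φ) - statistic a f T' (x φ)|) := by
  let X : Pool.Agent.Q205.Baire.Spectra F := ⟨fun k φ => x φ k, hx.cont, hx.mono, hx.unbounded⟩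
  have hS : ∀ (a : Option ℕ) (f : (Fin (dim a) → ℝ) → ℝ) (T : ℝ) (φ : F),
      statistic a f T (x φ) = Pool.Agent.Q205.Baire.S X (Pool.Agent.N250.SP.statL a) f T φ := by
    intro a f T φ
    rw [Pool.Agent.N250.SP.S_stat]
  set L := Pool.Agent.N250.SP.statL with hL
  have hN : ∀ a f, IsTest a f → Pool.Agent.Q205.Baire.Nice (Pool.Agent.Q205.Baire.S X (L a) f) :=
    fun a f hf => Pool.Agent.Q205.Baire.nice_S X (L a) hf.1
  have hConv : ∀ φ, Converges (x φ) ↔ Pool.Agent.U758.BGS.Conv X dim L φ := by
    intro φ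
    unfold Converges Pool.Agent.U758.BGS.Conv
    simp only [hS]
    exact ⟨fun h a f h1 h2 => h a f ⟨h1, h2⟩, fun h a f hf => h a f hf.1 hf.2⟩
  have hconv : (∀ᶠ φ in residual F, Converges (x φ)) ↔
      ∀ a f, IsTest a f → Pool.Agent.U758.BGS.LocConst (Pool.Agent.Q205.Baire.S X (L a) f) := by
    simp only [hConv]
    rw [Pool.Agent.U758.BGS.conv_iff X dim L]
    exact ⟨fun h a f hf => h a f hf.1 hf.2, fun h a f h1 h2 => h a f ⟨h1, h2⟩⟩
  refine ⟨fun ν hν => ?_, ?_, ?_⟩
  · have hLaw : ∀ φ, Law ν (x φ) ↔ Pool.Agent.Q205.Baire.Good X dim L ν φ := by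
      intro φ
      unfold Law Pool.Agent.Q205.Baire.Good
      simp only [hS]
      exact ⟨fun h a f h1 h2 => h a f ⟨h1, h2⟩, fun h a f hf => h a f hf.1 hf.2⟩
    have hlaw : (∀ᶠ φ in residual F, Law ν (x φ)) ↔
        ∀ a f, IsTest a f → Pool.Agent.Q205.Baire.LocUnif (Pool.Agent.Q205.Baire.S X (L a) f)
          (∫ z, f z ∂(ν a)) := by
      simp only [hLaw]
      rw [Pool.Agent.Q205.Baire.main_iff X dim L ν]
      exact ⟨fun h a f hf => h a f hf.1 hf.2, fun h a f h1 h2 => h a f ⟨h1, h2⟩⟩
    unfold dev
    refine ⟨?_, fun hnot => ?_⟩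
    · tfae_have 1 ↔ 3 := by
        rw [hlaw]
        simp only [hS]
        exact Iff.rfl
      tfae_have 3 → 2 := by
        intro h3
        have h := hlaw.1 (tfae_1_iff_3.2 h3)
        have hj := Pool.Agent.U758.BGS.joint_law X dim L ν fun a f h1 h2 => h a f ⟨h1, h2⟩
        filter_upwards [hj] with φ hφ a f hf
        simp only [hS]
        exact hφ a f hf.1 hf.2
      tfae_have 2 → 1 := by
        intro h2
        filter_upwards [h2] with φ hφ a f hf
        exact Pool.Agent.U758.BGS.tendsto_of_joint
          (B := fun T ψ => statistic a f T (x ψ)) (hφ a f hf)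
      tfae_have 1 → 4 := by
        intro h1 a f hf ε hε
        have h2 : ∀ᶠ φ in residual F,
            Tendsto (fun T => Pool.Agent.Q205.Baire.S X (L a) f T φ) atTop (𝓝 (∫ z, f z ∂(ν a))) := by
          filter_upwards [h1] with φ hφ
          have := hφ a f hf
          simp only [hS] at this
          exact this
        have h3 := Pool.Agent.Q205.Baire.main_nowhere X (L a) hf.1 hε h2
        simp only [frequently_atTop] at h3
        simp only [hS]
        exact h3
      tfae_have 4 → 1 := by
        intro h4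
        rw [hlaw]
        intro a f hf
        apply Pool.Agent.U758.BGS.locUnif_of_nowhere (hN a f hf)
        intro ε hε
        have h5 := h4 a f hf ε hε
        simp only [hS] at h5
        simp only [frequently_atTop]
        exact h5
      tfae_have 1 → 5 := by
        intro h1
        have h2 := hlaw.1 h1
        refine ⟨?_, fun a f hf => ?_⟩
        · filter_upwards [h1] with φ hφ a f hf
          exact ⟨_, hφ a f hf⟩
        · have h3 := Pool.Agent.U758.BGS.near_of_locUnif (h2 a f hf)
          simp only [hS]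
          exact h3
      tfae_have 5 → 1 := by
        rintro ⟨h1, h2⟩
        rw [hlaw]
        intro a f hf
        apply Pool.Agent.U758.BGS.locUnif_of_locConst (hconv.1 h1 a f hf)
        have h3 := h2 a f hf
        simp only [hS] at h3
        exact h3
      tfae_have 1 → 6 := by
        intro h1
        filter_upwards [h1] with φ hφ a f hf _ ε hε δ hδ
        obtain ⟨T₀, hT₀⟩ := eventually_atTop.1 ((Metric.tendsto_nhds.1 (hφ a f hf)) ε hε)
        refine ⟨max 0 T₀, fun T hT => ⟨T, le_rfl, ?_, ?_⟩⟩
        · have : 0 ≤ δ * T := mul_nonneg hδ.le ((le_max_left _ _).trans hT)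
          linarith
        · exact hT₀ T ((le_max_right _ _).trans hT)
      tfae_have 6 → 1 := by
        intro h6
        filter_upwards [h6] with φ hφ
        rw [hLaw]
        apply Pool.Agent.U758.BGS.good_of_gap X dim L mono_statL ν φ
        intro a f hf hf0
        have h7 := hφ a f hf hf0
        unfold dev at h7
        simp only [hS] at h7
        exact h7
      tfae_finish
    · have h1 : ¬ ∀ᶠ φ in residual F, Pool.Agent.Q205.Baire.Good X dim L ν φ := by
        simpa only [hLaw] using hnot
      obtain ⟨a, f, hf, hf0, ε, hε, δ, hδ, U, hU, hne, hr⟩ :=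
        Pool.Agent.U758.BGS.dichotomy X dim L mono_statL ν h1
      refine ⟨a, f, hf, hf0, ε, hε, δ, hδ, U, hU, hne, ?_⟩
      simp only [hS]
      exact hr
  · constructor
    · intro h
      have hj := Pool.Agent.U758.BGS.joint_conv X dim L
        fun a f h1 h2 => hconv.1 h a f ⟨h1, h2⟩
      filter_upwards [hj] with φ hφ a f hf
      simp only [hS]
      exact hφ a f hf.1 hf.2
    · intro h
      filter_upwards [h] with φ hφ a f hf
      obtain ⟨c, hc⟩ := hφ a f hf
      exact ⟨c, Pool.Agent.U758.BGS.tendsto_of_joint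
        (B := fun T ψ => statistic a f T (x ψ)) hc⟩
  · intro h
    rw [hconv] at h
    push Not at h
    obtain ⟨a, f, hf, hn⟩ := h
    obtain ⟨ε, hε, U, hU, hne, hr⟩ :=
      Pool.Agent.U758.BGS.exists_osc_of_not_locConst (hN a f hf) hn
    refine ⟨a, f, hf, ε, hε, U, hU, hne, ?_⟩
    simp only [hS]
    exact hr

/-- **What a generic law of the local statistics means.** First part: continuous families of levels
`x φ`, `φ` in a Baire space `F`. Second part: the unfolded levels of the metrics `exp (ι φ) · g` on a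
closed surface are such a family, with mean spacing one. -/
theorem result :
    (∀ (F : Type) [TopologicalSpace F] [BaireSpace F] (x : F → ℕ → ℝ), IsFamily x →
      -- a generic law
      (∀ ν : ∀ a, Measure (Fin (dim a) → ℝ), (∀ a, IsFiniteMeasureOnCompacts (ν a)) →
        List.TFAE [
          ∀ᶠ φ in residual F, Law ν (x φ),
          ∀ᶠ φ in residual F, JointLaw x ν φ,
          ∀ a f, IsTest a f → ∀ ε : ℝ, 0 < ε → ∀ U : Set F, IsOpen U → U.Nonempty →
            ∃ V : Set F, IsOpen V ∧ V.Nonempty ∧ V ⊆ U ∧ ∃ T₀ : ℝ, ∀ ψ ∈ V, ∀ T, T₀ ≤ T →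
              dev ν a f T (x ψ) ≤ ε,
          ∀ a f, IsTest a f → ∀ ε : ℝ, 0 < ε →
            IsNowhereDense {φ | ∀ T₀ : ℝ, ∃ T, T₀ ≤ T ∧ ε < dev ν a f T (x φ)},
          (∀ᶠ φ in residual F, Converges (x φ)) ∧
            ∀ a f, IsTest a f → ∀ ε : ℝ, 0 < ε → ∀ U : Set F, IsOpen U → U.Nonempty → ∀ T₀ : ℝ,
              ∃ ψ ∈ U, ∃ T, T₀ ≤ T ∧ dev ν a f T (x ψ) < ε,
          ∀ᶠ φ in residual F, SparseLaw ν (x φ)] ∧
        ((¬ ∀ᶠ φ in residual F, Law ν (x φ)) → ∃ a f, IsTest a f ∧ (∀ z, 0 ≤ f z) ∧
          ∃ ε : ℝ, 0 < ε ∧ ∃ δ : ℝ, 0 < δ ∧ ∃ U : Set F, IsOpen U ∧ U.Nonempty ∧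
            ∀ᶠ φ in residual F, φ ∈ U → ∀ T₀ : ℝ, ∃ T, T₀ ≤ T ∧
              ∀ T', T ≤ T' → T' ≤ (1 + δ) * T → ε < dev ν a f T' (x φ))) ∧
      -- generic convergence
      ((∀ᶠ φ in residual F, Converges (x φ)) ↔ ∀ᶠ φ in residual F, JointlyConverges x φ) ∧
      ((¬ ∀ᶠ φ in residual F, Converges (x φ)) → ∃ a f, IsTest a f ∧ ∃ ε : ℝ, 0 < ε ∧
        ∃ U : Set F, IsOpen U ∧ U.Nonempty ∧ ∀ᶠ φ in residual F, φ ∈ U →
          ∀ T₀ : ℝ, ∃ T, T₀ ≤ T ∧ ∃ T', T₀ ≤ T' ∧
            ε < |statistic a f T (x φ) - statistic a f T' (x φ)|)) ∧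
    -- surfaces
    ∀ (M : Type) [MetricSpace M] [CompactSpace M] [MeasurableSpace M] [BorelSpace M]
      [Nonempty M] (μ : Measure M) (D : Data M), D.IsSurf μ →
      ∀ (F : Type) [TopologicalSpace F] (ι : F → C(M, ℝ)), Continuous ι →
        (∀ φ, ∃ x, IsUnfolded D μ (ι φ) x) ∧
        ∀ x : F → ℕ → ℝ, (∀ φ, IsUnfolded D μ (ι φ) (x φ)) → IsFamily x ∧
          ∀ φ, Tendsto (fun T : ℝ => (number T (x φ) : ℝ) / T) atTop (𝓝 1) := by
  refine ⟨fun F _ _ x hx => family F x hx, ?_⟩
  intro M _ _ _ _ _ μ D hD F _ ι hι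
  refine ⟨fun φ => ((SurfacesLimitStatistics.result M μ D hD F ι hι).1 φ).2, fun x hx => ?_⟩
  obtain ⟨X, hX, hmean⟩ := Pool.Agent.N250.SP.exists_spectra M μ D hD F ι hι x hx
  refine ⟨⟨fun k => ?_, fun φ => ?_, fun φ => ?_⟩, hmean⟩
  · have : (fun φ => x φ k) = X.x k := by
      funext φ
      rw [← hX φ]
    rw [this]
    exact X.cont k
  · rw [← hX φ]
    exact X.mono φ
  · rw [← hX φ]
    exact X.unb φ

end Pool.Agent.Results.MP_a825e8_mp.GenericLaws
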